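import Pool.Agent.H7.LP.Targets
import Pool.Agent.H71.DST1

/-!
# Row KER of the board lpg_modules: the kernel and the theorem of Mycielski
-/

set_option autoImplicit false

open Set Filter Topology

namespace Pool.Agent.H85.LP

open Pool.Agent.H7.LP

/-- `U` meets only countably many classes -/
private def Sm {X : Type} (E : X → X → Prop) (U : Set X) : Prop :=
  ∃ A : Set X, A.Countable ∧ ∀ x ∈ U, ∃ a ∈ A, E a x

private lemma sm_mono {X : Type} {E : X → X → Prop} {U V : Set X} (h : Sm E U) (hVU : V ⊆ U) :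
    Sm E V := by
  obtain ⟨A, hA, hA'⟩ := h
  exact ⟨A, hA, fun x hx => hA' x (hVU hx)⟩

private lemma sm_union {X : Type} {E : X → X → Prop} {U V : Set X} (h : Sm E U) (h' : Sm E V) :
    Sm E (U ∪ V) := by
  obtain ⟨A, hA, hA'⟩ := h
  obtain ⟨B, hB, hB'⟩ := h'
  refine ⟨A ∪ B, hA.union hB, ?_⟩
  rintro x (hx | hx)
  · obtain ⟨a, ha, hax⟩ := hA' x hx
    exact ⟨a, Or.inl ha, hax⟩
  · obtain ⟨a, ha, hax⟩ := hB' x hx
    exact ⟨a, Or.inr ha, hax⟩

private lemma sm_sUnion {X : Type} {E : X → X → Prop} {S : Set (Set X)} (hS : S.Countable)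
    (h : ∀ U ∈ S, Sm E U) : Sm E (⋃₀ S) := by
  choose! A hA using h
  refine ⟨⋃ U ∈ S, A U, hS.biUnion fun U hU => (hA U hU).1, ?_⟩
  rintro x ⟨U, hU, hx⟩
  obtain ⟨a, ha, hax⟩ := (hA U hU).2 x hx
  exact ⟨a, mem_biUnion hU ha, hax⟩

theorem pf_KER : T_KER := by
  intro X _ _ E F hE hF hsec hno
  set Q : Set X := {x | ∀ U : Set X, IsOpen U → x ∈ U → ¬ Sm E U} with hQ
  set S : Set (Set X) := {U | U ∈ TopologicalSpace.countableBasis X ∧ Sm E U} with hS
  have hSc : S.Countable := (TopologicalSpace.countable_countableBasis X).mono fun U hU => hU.1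
  have hQc : Qᶜ = ⋃₀ S := by
    ext x
    rw [mem_compl_iff, mem_sUnion]
    constructor
    · intro hx
      rw [hQ, mem_ofPred_eq] at hx
      push Not at hx
      obtain ⟨U, hU, hxU, hsm⟩ := hx
      obtain ⟨V, hV, hxV, hVU⟩ :=
        (TopologicalSpace.isBasis_countableBasis X).exists_subset_of_mem_open hxU hU
      exact ⟨V, ⟨hV, sm_mono hsm hVU⟩, hxV⟩
    · rintro ⟨V, ⟨hV, hsm⟩, hxV⟩ hx
      exact hx V ((TopologicalSpace.isBasis_countableBasis X).isOpen hV) hxV hsm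
  have hsmQ : Sm E Qᶜ := by
    rw [hQc]
    exact sm_sUnion hSc fun U hU => hU.2
  have hQcl : IsClosed Q := by
    rw [← isOpen_compl_iff, hQc]
    exact isOpen_sUnion fun U hU =>
      (TopologicalSpace.isBasis_countableBasis X).isOpen hU.1
  have hQne : Q.Nonempty := by
    by_contra h
    rw [not_nonempty_iff_eq_empty] at h
    rw [h, compl_empty] at hsmQ
    obtain ⟨A, hA, hA'⟩ := hsmQ
    exact hno ⟨A, hA, fun x => hA' x (mem_univ x)⟩
  -- relatively open sets of the kernel are not small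
  have hbig : ∀ U : Set X, IsOpen U → ∀ x ∈ U, x ∈ Q → ¬ Sm E (U ∩ Q) := by
    intro U hU x hxU hxQ hsm
    refine hxQ U hU hxU (sm_mono (sm_union hsm hsmQ) ?_)
    intro y hy
    by_cases h : y ∈ Q
    · exact Or.inl ⟨hy, h⟩
    · exact Or.inr h
  have : PolishSpace Q := hQcl.polishSpace
  have : Nonempty Q := hQne.to_subtype
  have : PerfectSpace Q := by
    refine ⟨?_⟩
    rw [preperfect_iff_nhds]
    rintro x - U hU
    obtain ⟨V, hVU, hV, hxV⟩ := mem_nhds_iff.1 hU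
    obtain ⟨W, hW, hWV⟩ := isOpen_induced_iff.1 hV
    by_contra hcon
    push Not at hcon
    refine hbig W hW x.1 ?_ x.2 ⟨{x.1}, countable_singleton _, ?_⟩
    · have : x ∈ Subtype.val ⁻¹' W := by rw [hWV]; exact hxV
      exact this
    · rintro y ⟨hyW, hyQ⟩
      have h1 : (⟨y, hyQ⟩ : Q) ∈ V := by
        rw [← hWV]
        exact hyW
      have h2 := hcon ⟨y, hyQ⟩ ⟨hVU h1, mem_univ _⟩
      refine ⟨x.1, rfl, ?_⟩
      rw [← h2]
      exact hE.refl _
  have hR : IsMeagre (⋃ l, {p : Q × Q | (p.1.1, p.2.1) ∈ F l}) := by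
    refine isMeagre_iUnion fun l => ?_
    apply IsNowhereDense.isMeagre
    have hcl : IsClosed {p : Q × Q | (p.1.1, p.2.1) ∈ F l} := by
      refine (hF l).preimage ?_
      fun_prop
    unfold IsNowhereDense
    rw [hcl.closure_eq, eq_empty_iff_forall_notMem]
    rintro ⟨x, y⟩ hxy
    obtain ⟨U, V, hU, hV, hxU, hyV, hUV⟩ := isOpen_prod_iff.1 isOpen_interior x y hxy
    obtain ⟨W, hW, hWV⟩ := isOpen_induced_iff.1 hV
    have hin : ∀ z ∈ V, (x.1, z.1) ∈ F l := by
      intro z hz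
      have h := interior_subset (hUV (show (x, z) ∈ U ×ˢ V from ⟨hxU, hz⟩))
      exact h
    refine hbig W hW y.1 ?_ y.2 ⟨{y.1}, countable_singleton _, ?_⟩
    · have : y ∈ Subtype.val ⁻¹' W := by rw [hWV]; exact hyV
      exact this
    · rintro z ⟨hzW, hzQ⟩
      have h1 : (⟨z, hzQ⟩ : Q) ∈ V := by
        rw [← hWV]
        exact hzW
      exact ⟨y.1, rfl, hsec l x.1 y.1 z (hin y hyV) (hin ⟨z, hzQ⟩ h1)⟩
  obtain ⟨f, hf, -, hf'⟩ := Pool.Agent.H71.DST.mycielski _ hR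
  refine ⟨fun u => (f u).1, continuous_subtype_val.comp hf, ?_⟩
  intro u v huv l hl
  exact hf' u v huv (mem_iUnion.2 ⟨l, hl⟩)

end Pool.Agent.H85.LP
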