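import Pool.Agent.H7.LP.Targets

/-!
# Row REP of the board lpg_modules: representatives of labels
-/

set_option autoImplicit false

open Set Filter Topology

namespace Pool.Agent.H85.LP

open Pool.Agent.H7.LP Pool.Agent.H93.CP

private lemma key (h1 : T_LAB) (h2 : T_SGC) (h4 : T_CLR) (h5 : T_KER) {G X : Type} [Group G]
    [TopologicalSpace G] [IsTopologicalGroup G] [PolishSpace G] [MeasurableSpace X]
    [StandardBorelSpace X] {M : Subgroup G} [MulAction M X] (Y : Hit M X) (hM : ¬ PMO M X)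
    (R H : Subgroup G) (hP : Piece R H) (g : ℕ → G) (hg : ∀ a, ∃ n, a * (g n)⁻¹ ∈ H) (j : ℕ) :
    ∃ A : Set X, A.Countable ∧ ∀ x, ∃ a ∈ A, ∃ h ∈ H,
      tr h (lab R (tr (g j) (Y.C a))) = lab R (tr (g j) (Y.C x)) := by
  obtain ⟨-, hlab, hlabR, -⟩ := h1 G
  obtain ⟨C, hCc, hCH, hC⟩ := h2 G R H hP
  obtain ⟨t, hPt, hBt, hcl, -⟩ := h4 G X M Y R H g hP
  have hlh : ∀ (h : G), h ∈ H → ∀ (a : G) (c : ℕ → Set G),
      lab R (tr (h * a) c) = tr h (lab R (tr a c)) := by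
    intro h hh a c
    rw [tr_mul, hlab R H (tr a c) hP h hh]
  have hE : Equivalence
      (fun a x : X => ∃ h ∈ H, tr h (lab R (tr (g j) (Y.C a))) = lab R (tr (g j) (Y.C x))) := by
    refine ⟨?_, ?_, ?_⟩
    · intro x
      exact ⟨1, H.one_mem, tr_one _⟩
    · rintro x y ⟨h, hh, e⟩
      refine ⟨h⁻¹, H.inv_mem hh, ?_⟩
      rw [← e, ← tr_mul, inv_mul_cancel, tr_one]
    · rintro x y z ⟨h, hh, e⟩ ⟨h', hh', e'⟩
      refine ⟨h' * h, H.mul_mem hh' hh, ?_⟩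
      rw [tr_mul, e, e']
  have hF : ∀ n : ℕ, @IsClosed (X × X) (@instTopologicalSpaceProd _ _ t t)
      {p : X × X | ∃ h ∈ C n.unpair.2,
        lab R (tr (h * g n.unpair.1) (Y.C p.1)) = lab R (tr (g j) (Y.C p.2))} :=
    fun n => hcl n.unpair.1 j (C n.unpair.2) (hCc _) (hCH _)
  have hS : ∀ (n : ℕ) (x y y' : X),
      (x, y) ∈ {p : X × X | ∃ h ∈ C n.unpair.2,
        lab R (tr (h * g n.unpair.1) (Y.C p.1)) = lab R (tr (g j) (Y.C p.2))} →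
      (x, y') ∈ {p : X × X | ∃ h ∈ C n.unpair.2,
        lab R (tr (h * g n.unpair.1) (Y.C p.1)) = lab R (tr (g j) (Y.C p.2))} →
      ∃ h ∈ H, tr h (lab R (tr (g j) (Y.C y))) = lab R (tr (g j) (Y.C y')) := by
    rintro n x y y' ⟨h, hh, e⟩ ⟨h', hh', e'⟩
    refine ⟨h' * h⁻¹, H.mul_mem (hCH _ _ hh') (H.inv_mem (hCH _ _ hh)), ?_⟩
    simp only at e e'
    rw [hlh h (hCH _ _ hh)] at e
    rw [hlh h' (hCH _ _ hh')] at e'
    rw [← e, ← e', ← tr_mul, inv_mul_cancel_right]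
  by_contra hno
  obtain ⟨f, hf, hf'⟩ := @h5 X t hPt _ _ hE hF hS hno
  apply hM
  refine ⟨f, @Continuous.measurable _ _ _ _ _ t _ _ _ hf, ?_⟩
  intro u v huv m hm
  obtain ⟨i, hi⟩ := hg (g j * (m : G))
  obtain ⟨l, c, hc, hr⟩ := hC _ hi
  refine hf' u v huv (Nat.pair i l) ?_
  simp only [mem_ofPred_eq, Nat.unpair_pair]
  refine ⟨c, hc, ?_⟩
  have e1 : g j * (m : G) = c * ((c⁻¹ * (g j * (m : G) * (g i)⁻¹)) * g i) := by group
  have hrH : c⁻¹ * (g j * (m : G) * (g i)⁻¹) ∈ H := hP.le hr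
  rw [← hm, Y.smul m (f u), ← tr_mul, e1, hlh c (hCH l c hc), hlh c (hCH l c hc), hlh _ hrH,
    hlabR R _ _ hr]

theorem pf_REP (h1 : T_LAB) (h2 : T_SGC) (h3 : T_OCI) (h4 : T_CLR) (h5 : T_KER) : T_REP := by
  intro G X _ _ _ _ _ _ L M _ Y hM
  have hg : ∀ k, ∃ g : ℕ → G, ∀ a, ∃ n, a * (g n)⁻¹ ∈ L.H k := fun k => h3 G (L.H k) (L.piece k).op
  choose g hg using hg
  choose A hA hA' using fun k j => key h1 h2 h4 h5 Y hM (L.R k) (L.H k) (L.piece k) (g k) (hg k) j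
  obtain ⟨-, hlab, hlabR, -⟩ := h1 G
  refine ⟨⟨fun k => ⋃ j, (fun a => (a, g k j)) '' A k j, ?_, ?_⟩⟩
  · intro k
    exact countable_iUnion fun j => (hA k j).image _
  · intro k x a
    obtain ⟨n, hn⟩ := hg k a
    obtain ⟨b, hb, h, hh, e⟩ := hA' k n x
    refine ⟨h⁻¹ * (a * (g k n)⁻¹)⁻¹, (L.H k).mul_mem ((L.H k).inv_mem hh) ((L.H k).inv_mem hn),
      (b, g k n), mem_iUnion.2 ⟨n, b, hb, rfl⟩, ?_⟩
    have e1 : h⁻¹ * (a * (g k n)⁻¹)⁻¹ * a = h⁻¹ * g k n := by group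
    rw [e1, tr_mul, hlab (L.R k) (L.H k) _ (L.piece k) _ ((L.H k).inv_mem hh), ← e, ← tr_mul,
      inv_mul_cancel, tr_one]

end Pool.Agent.H85.LP
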